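import Pool.Agent.KS6_69.SD.B

/-!
# A simple domain isomorphic to all its nonzero idempotent one-sided ideals

There is a simple domain `A` without a left or right identity such that every nonzero idempotent left
ideal and every nonzero idempotent right ideal of `A` is isomorphic to `A`. The nonzero
idempotent left ideals form a chain of the order type of `(-∞, 0]`, and so do the right ones.
-/

set_option autoImplicit false

namespace Pool.Agent.Results.MP_dd6327_al.BothSides

open Pool.Agent.KS6_69.SD

/-- There is a simple domain `A` with neither a left nor a right identity element, in particular not a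
division ring, such that (1) every nonzero idempotent left ideal is isomorphic to `A`, (2) every
nonzero idempotent right ideal is isomorphic to `A`, (3) the nonzero idempotent left ideals,
ordered by inclusion, are a chain of the order type of `(-∞, 0]`, and (4) so are the nonzero
idempotent right ideals. -/
theorem result : ∃ (A : Type) (_ : NonUnitalRing A), IsSimpleRing A ∧ NoZeroDivisors A ∧
    (¬ ∃ e : A, ∀ x, e * x = x) ∧ (¬ ∃ e : A, ∀ x, x * e = x) ∧
    (∀ L : NonUnitalSubring A, IsIdemLeft L → Nonempty (L ≃+* A)) ∧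
    (∀ L : NonUnitalSubring A, IsIdemRight L → Nonempty (L ≃+* A)) ∧
    (∃ F : Set.Iic (0 : ℝ) ↪o NonUnitalSubring A, Set.range F = {L | IsIdemLeft L}) ∧
    ∃ F : Set.Iic (0 : ℝ) ↪o NonUnitalSubring A, Set.range F = {L | IsIdemRight L} := by
  obtain ⟨D, _, φ, h⟩ := exD
  have hex : ∃ x ∈ h.S, x ≠ 0 := by
    obtain ⟨x, hx, h2, -⟩ := h.tr zero_lt_one (show (2 : ℝ) < 3 by norm_num)
    exact ⟨x, fun _ => by rw [h2]; norm_num, hx⟩
  have h1S : (1 : D) ∉ h.S := fun k => by
    have := k one_ne_zero
    rw [h.one] at this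
    exact absurd this (by simp)
  refine ⟨h.S, inferInstance, h.simple, ⟨fun {a b} k => ?_⟩, ?_, ?_, fun L hL => h.isoL L hL,
    fun L hL => h.isoR L hL, ?_, ?_⟩
  · exact (mul_eq_zero.1 (congrArg (·.1) k)).imp Subtype.ext Subtype.ext
  · rintro ⟨e, he⟩
    obtain ⟨x, hx, x0⟩ := hex
    have h3 : e.1 = 1 := mul_right_cancel₀ x0 ((congrArg (·.1) (he ⟨x, hx⟩)).trans (one_mul x).symm)
    exact h1S (h3 ▸ e.2)
  · rintro ⟨e, he⟩
    obtain ⟨x, hx, x0⟩ := hex
    have h3 : e.1 = 1 := mul_left_cancel₀ x0 ((congrArg (·.1) (he ⟨x, hx⟩)).trans (mul_one x).symm)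
    exact h1S (h3 ▸ e.2)
  · refine ⟨⟨⟨fun c => h.leftI c.1 c.2, fun c d k => Subtype.ext (le_antisymm
      ((h.leftI_le c.2 d.2).1 (le_of_eq k)) ((h.leftI_le d.2 c.2).1 (le_of_eq k.symm)))⟩,
      fun {c d} => h.leftI_le c.2 d.2⟩, ?_⟩
    ext L
    constructor
    · rintro ⟨c, rfl⟩
      exact h.leftI_idem c.1 c.2
    · intro hL
      obtain ⟨c, hc, h3⟩ := h.idem L hL.1 hL.2.1 hL.2.2
      refine ⟨⟨c, hc⟩, ?_⟩
      ext y
      constructor
      · intro hy
        obtain ⟨z, hz, hzy⟩ := (h3 y.1).1 hy
        rwa [← show z = y from Subtype.ext hzy]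
      · intro hy
        exact (h3 y.1).2 ⟨y, hy, rfl⟩
  · refine ⟨⟨⟨fun c => h.rightI (1 - c.1) (by have := c.2; simp only [Set.mem_Iic] at this; linarith),
      fun c d k => Subtype.ext (le_antisymm ?_ ?_)⟩, fun {c d} => ?_⟩, ?_⟩
    · have := (h.rightI_le _ _).1 (le_of_eq k)
      linarith
    · have := (h.rightI_le _ _).1 (le_of_eq k.symm)
      linarith
    · have hc := c.2
      have hd := d.2
      simp only [Set.mem_Iic] at hc hd
      have e := h.rightI_le (c := 1 - c.1) (d := 1 - d.1) (by linarith) (by linarith)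
      have e' : (1 - d.1 ≤ 1 - c.1) ↔ c ≤ d := by
        rw [← Subtype.coe_le_coe]
        constructor <;> intro k <;> linarith
      exact e.trans e'
    · ext L
      constructor
      · rintro ⟨c, rfl⟩
        exact h.rightI_idem (1 - c.1) (by
          have := c.2; simp only [Set.mem_Iic] at this; linarith)
      · intro hL
        obtain ⟨q, hq, h3⟩ := h.idemR L hL.1 hL.2.1 hL.2.2
        refine ⟨⟨1 - q, by simp only [Set.mem_Iic]; linarith⟩, ?_⟩
        ext y
        constructor
        · intro hy
          have hy' : y.1 ∈ h.A 0 q := by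
            have hy2 : y.1 ∈ h.A 0 (1 - (1 - q)) := hy
            rwa [sub_sub_cancel] at hy2
          obtain ⟨z, hz, hzy⟩ := (h3 y.1).1 hy'
          rwa [← show z = y from Subtype.ext hzy]
        · intro hy
          have hy' := (h3 y.1).2 ⟨y, hy, rfl⟩
          have hy2 : y.1 ∈ h.A 0 (1 - (1 - q)) := by rwa [sub_sub_cancel]
          exact hy2

end Pool.Agent.Results.MP_dd6327_al.BothSides
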